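import Pool.Agent.R223.RW.Stm
import Pool.Agent.Y282.RB.C0

/-! # Project RW (helper223): `Star n p` for `p ≥ 1000 n ^ 2` -/

set_option autoImplicit false

namespace Pool.Agent.R223.RW.Asm

open Pool.Agent.Y282.RB

theorem star (hL : S_LOW) (hM : S_MID) (hH : S_HIGH) (n : ℕ) (p : ℝ) (hn : 1 ≤ n)
    (hp : 1000 * (n : ℝ) ^ 2 ≤ p) : Star n p := by
  have hn' : (1 : ℝ) ≤ (n : ℝ) := by exact_mod_cast hn
  have hp2 : 2 < p := by nlinarith
  refine Pool.Agent.Y282.RB.C0.main n p hn hp2 ?_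
  intro γ hLam h0 hor
  by_cases h1 : γ 0 ≤ 1
  · exact hL n p hn hp γ hLam h0 h1
  · have h1' : 1 ≤ γ 0 := (not_le.1 h1).le
    have hg : (γ n) ^ 2 ≤ (γ 0) ^ 2 := hor.resolve_left h1
    rcases le_total (TT n γ) 4 with h | h
    · exact hM n p hn hp γ hLam h1' h
    · exact hH n p hn hp γ hLam h1' hg h

end Pool.Agent.R223.RW.Asm
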