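import Pool.Agent.R223.RW.Stm

/-!
# RW-DIFF: Cauchy-Schwarz
-/

set_option autoImplicit false

namespace Pool.Agent.R223.RW.DIFF

open Pool.Agent.Y282.RB

theorem sum_odd (j : ℕ) : ∑ i ∈ Finset.range j, (2 * (i : ℝ) + 1) = (j : ℝ) ^ 2 := by
  induction j with
  | zero => simp
  | succ j ih =>
    rw [Finset.sum_range_succ, ih]
    push_cast
    ring

theorem TT_nonneg (n : ℕ) (γ : ℕ → ℝ) : 0 ≤ TT n γ := by
  unfold TT
  exact Finset.sum_nonneg fun i _ => by positivity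

theorem part1 (n : ℕ) (γ : ℕ → ℝ) (j : ℕ) (hj : j ≤ n) :
    |γ 0 - γ j| ≤ (j : ℝ) * Real.sqrt (TT n γ) := by
  have h1 : γ 0 - γ j = ∑ i ∈ Finset.range j, (γ i - γ (i + 1)) :=
    (Finset.sum_range_sub' γ j).symm
  have h2 : (∑ i ∈ Finset.range j, (γ i - γ (i + 1))) ^ 2 ≤
      (∑ i ∈ Finset.range j, (2 * (i : ℝ) + 1)) *
        ∑ i ∈ Finset.range j, (γ i - γ (i + 1)) ^ 2 / (2 * (i : ℝ) + 1) := by
    refine Finset.sum_sq_le_sum_mul_sum_of_sq_eq_mul _ (fun i _ => by positivity)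
      (fun i _ => by positivity) fun i _ => ?_
    field_simp
  have h3 : ∑ i ∈ Finset.range j, (γ i - γ (i + 1)) ^ 2 / (2 * (i : ℝ) + 1) ≤ TT n γ := by
    unfold TT
    exact Finset.sum_le_sum_of_subset_of_nonneg (Finset.range_subset_range.2 hj)
      fun i _ _ => by positivity
  rw [sum_odd] at h2
  have h4 : (γ 0 - γ j) ^ 2 ≤ (j : ℝ) ^ 2 * TT n γ := by
    rw [h1]
    exact h2.trans (mul_le_mul_of_nonneg_left h3 (sq_nonneg _))
  have h5 := Real.abs_le_sqrt h4
  rwa [Real.sqrt_mul (sq_nonneg _), Real.sqrt_sq (Nat.cast_nonneg j)] at h5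

theorem main : S_DIFF := by
  intro n γ
  refine ⟨part1 n γ, ?_⟩
  intro σ h0 h1
  have hS : 0 ≤ Real.sqrt (TT n γ) := Real.sqrt_nonneg _
  constructor
  · intro j hj
    have hj0 : (0 : ℝ) ≤ (j : ℝ) := Nat.cast_nonneg j
    have a1 := part1 n γ j hj.le
    have a2 := part1 n γ (j + 1) hj
    push_cast at a2
    have t0 : 0 ≤ th σ j := by
      unfold th
      apply div_nonneg <;> linarith
    have t1 : 0 ≤ 1 - th σ j := by
      unfold th
      rw [sub_nonneg, div_le_one (by positivity)]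
      linarith
    have e : γ 0 - yy σ γ j = th σ j * (γ 0 - γ j) + (1 - th σ j) * (γ 0 - γ (j + 1)) := by
      unfold yy
      ring
    rw [e]
    calc |th σ j * (γ 0 - γ j) + (1 - th σ j) * (γ 0 - γ (j + 1))|
        ≤ |th σ j * (γ 0 - γ j)| + |(1 - th σ j) * (γ 0 - γ (j + 1))| := abs_add_le _ _
      _ = th σ j * |γ 0 - γ j| + (1 - th σ j) * |γ 0 - γ (j + 1)| := by
          rw [abs_mul, abs_mul, abs_of_nonneg t0, abs_of_nonneg t1]
      _ ≤ th σ j * (((j : ℝ) + 1) * Real.sqrt (TT n γ)) +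
          (1 - th σ j) * (((j : ℝ) + 1) * Real.sqrt (TT n γ)) := by
          refine add_le_add (mul_le_mul_of_nonneg_left ?_ t0) (mul_le_mul_of_nonneg_left a2 t1)
          refine a1.trans (mul_le_mul_of_nonneg_right (by linarith) hS)
      _ = ((j : ℝ) + 1) * Real.sqrt (TT n γ) := by ring
  · intro hn
    have a2 := part1 n γ 1 hn
    have e : γ 0 - yy σ γ 0 = σ * (γ 0 - γ 1) := by
      unfold yy th
      simp
      ring
    rw [e, abs_mul, abs_of_pos h0]
    refine mul_le_mul_of_nonneg_left ?_ h0.le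
    simpa using a2

end Pool.Agent.R223.RW.DIFF
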