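import Pool.Agent.R223.RW.Stm

/-!
Project RW: the case `γ_0 ≥ 1`, `TT ≥ 4` (after helper771's `HIGH.lean`, in small steps).
-/

set_option autoImplicit false

namespace Pool.Agent.R223.RW.HIGHQ

open Pool.Agent.Y282.RB

theorem a3 (σ q : ℝ) (hσ0 : 0 < σ) (hσ : σ ≤ 1 / 1000) (hq : q * (1 - σ) = 1) :
    q ^ 2 ≤ 1 + 3 * σ := by
  have h6 : 1 ≤ (1 + 3 * σ) * (1 - σ) ^ 2 := by
    have e : (1 + 3 * σ) * (1 - σ) ^ 2 = 1 + σ * (1 - 5 * σ) + 3 * σ ^ 3 := by ring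
    rw [e]
    have h1 : 0 ≤ σ * (1 - 5 * σ) := mul_nonneg hσ0.le (by linarith)
    have h2 : 0 ≤ σ ^ 3 := by positivity
    linarith
  have h7 : q ^ 2 * (1 - σ) ^ 2 = 1 := by rw [← mul_pow, hq, one_pow]
  have h8 : 0 < (1 - σ) ^ 2 := by
    have : 0 < 1 - σ := by linarith
    positivity
  have h9 : q ^ 2 * (1 - σ) ^ 2 ≤ (1 + 3 * σ) * (1 - σ) ^ 2 := by rw [h7]; exact h6
  exact le_of_mul_le_mul_right h9 h8

theorem a4 (A σ g : ℝ) (hA : 1 ≤ A) (hσ0 : 0 < σ) :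
    A ^ 2 - 2 * A * σ * (A + |g|) ≤ (A - σ * (A - g)) ^ 2 := by
  have h6' : -|g| ≤ g := neg_abs_le _
  have h7 : 0 ≤ σ ^ 2 * (A - g) ^ 2 := by positivity
  have h8 : 0 ≤ 2 * A * σ := by positivity
  have h9 : 2 * A * σ * (A - g) ≤ 2 * A * σ * (A + |g|) :=
    mul_le_mul_of_nonneg_left (by linarith) h8
  have e : (A - σ * (A - g)) ^ 2 = A ^ 2 - 2 * A * σ * (A - g) + σ ^ 2 * (A - g) ^ 2 := by ring
  rw [e]
  linarith

theorem a5 (σ n : ℝ) (hσ : σ ≤ 1 / 1000) (hn : 1 ≤ n) :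
    (1 + 4 * σ * n) / n ≤ 1 + 4 / 1000 := by
  rw [div_le_iff₀ (by linarith)]
  have h := mul_le_mul_of_nonneg_right hσ (by linarith : 0 ≤ n)
  linarith

theorem b3 (n σ A L q Bn X : ℝ) (hn : 1 ≤ n) (hσ0 : 0 < σ) (hσ : σ ≤ 1 / 1000)
    (hσn : σ * (1000 * n ^ 2) ≤ 1) (hL0 : 0 ≤ L) (hL : L ≤ n - 1) (hq0 : 0 < q)
    (hq1 : q ≤ 1001 / 1000 + 1 / 10000) (hq2 : q ^ 2 ≤ 1 + 3 * σ) (hB0 : 0 ≤ Bn)
    (hB1 : Bn ≤ 1 + 4 / 1000)
    (h : X ≤ 2 * q * A ^ 2 * (1 + Bn) + (2 * L + 1) + A ^ 2 * q ^ 2 * (2 * L + 9 / 2)) :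
    X ≤ A ^ 2 * (2 * L + 9) + (2 * L + 1) := by
  have hA2 : 0 ≤ A ^ 2 := sq_nonneg A
  have h6 : q * (1 + Bn) ≤ (1001 / 1000 + 1 / 10000) * (1 + (1 + 4 / 1000)) :=
    mul_le_mul hq1 (by linarith) (by linarith) (by norm_num)
  have h6' : 2 * q * (1 + Bn) ≤ 43 / 10 := by
    have e : 2 * q * (1 + Bn) = 2 * (q * (1 + Bn)) := by ring
    rw [e]
    norm_num at h6 ⊢
    linarith
  have h7 : σ * L ≤ 1 / 1000 := by
    have k1 : L ≤ n ^ 2 := by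
      have : n * 1 ≤ n * n := mul_le_mul_of_nonneg_left hn (by linarith)
      rw [sq]
      linarith
    have k2 := mul_le_mul_of_nonneg_left k1 hσ0.le
    linarith
  have h9 : q ^ 2 * (2 * L + 9 / 2) ≤ 2 * L + 9 / 2 + 1 / 10 := by
    have h10 : q ^ 2 * (2 * L + 9 / 2) ≤ (1 + 3 * σ) * (2 * L + 9 / 2) :=
      mul_le_mul_of_nonneg_right hq2 (by linarith)
    have e : (1 + 3 * σ) * (2 * L + 9 / 2) = 2 * L + 9 / 2 + 6 * (σ * L) + 27 / 2 * σ := by ring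
    rw [e] at h10
    linarith
  have h11 : A ^ 2 * (2 * q * (1 + Bn)) ≤ A ^ 2 * (43 / 10) := mul_le_mul_of_nonneg_left h6' hA2
  have h12 : A ^ 2 * (q ^ 2 * (2 * L + 9 / 2)) ≤ A ^ 2 * (2 * L + 9 / 2 + 1 / 10) :=
    mul_le_mul_of_nonneg_left h9 hA2
  have e1 : 2 * q * A ^ 2 * (1 + Bn) = A ^ 2 * (2 * q * (1 + Bn)) := by ring
  have e2 : A ^ 2 * q ^ 2 * (2 * L + 9 / 2) = A ^ 2 * (q ^ 2 * (2 * L + 9 / 2)) := by ring
  rw [e1, e2] at h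
  have e3 : A ^ 2 * (2 * L + 9) = A ^ 2 * (43 / 10) + A ^ 2 * (2 * L + 9 / 2 + 1 / 10)
      + A ^ 2 * (1 / 10) := by ring
  rw [e3]
  have : 0 ≤ A ^ 2 * (1 / 10) := by positivity
  linarith

theorem b4 (n p L D k : ℝ) (hn : 1 ≤ n) (hp : 1000 * n ^ 2 ≤ p) (hL0 : 0 ≤ L) (hL : L ≤ n - 1)
    (hD0 : 0 ≤ D) (hpk : p ≤ k) (h : k * D ≤ (1 + D) * (2 * L + 9) + (2 * L + 1)) :
    p / 2 * D ≤ 2 * L + 6 := by
  have hN2 : n ≤ n ^ 2 := by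
    have : n * 1 ≤ n * n := mul_le_mul_of_nonneg_left hn (by linarith)
    rw [sq]
    linarith
  have h6 : p * D ≤ k * D := mul_le_mul_of_nonneg_right hpk hD0
  have e1 : (1 + D) * (2 * L + 9) = 2 * L + 9 + 2 * (L * D) + 9 * D := by ring
  have e2 : (p - 2 * L - 9) * D = p * D - 2 * (L * D) - 9 * D := by ring
  have h4 : (p - 2 * L - 9) * D ≤ 4 * L + 10 := by
    rw [e1] at h
    rw [e2]
    linarith
  have k6 : 991 * n ^ 2 ≤ p - 2 * L - 9 := by linarith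
  have k7 : 991 * n ^ 2 * D ≤ (p - 2 * L - 9) * D := mul_le_mul_of_nonneg_right k6 hD0
  have k8 : 991 * n ^ 2 * D ≤ 10 * n := by linarith
  have k9 : (991 * (n * D)) * n ≤ 10 * n := by
    have e : (991 * (n * D)) * n = 991 * n ^ 2 * D := by ring
    rw [e]
    exact k8
  have k10 := le_of_mul_le_mul_right k9 (by linarith)
  have k11 : (2 * L + 9) * D ≤ (9 * n) * D := mul_le_mul_of_nonneg_right (by linarith) hD0
  have e3 : (2 * L + 9) * D = 2 * (L * D) + 9 * D := by ring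
  have e4 : (9 * n) * D = 9 * (n * D) := by ring
  have e5 : p / 2 * D = p * D / 2 := by ring
  rw [e2] at h4
  rw [e3, e4] at k11
  rw [e5]
  linarith

theorem b5 (n p L A D : ℝ) (hn : 1 ≤ n) (hp : 0 < p) (hL : L = Real.log n) (hA2D : A ^ 2 = 1 + D)
    (hx : p / 2 * D ≤ 2 * L + 6) : (A ^ 2) ^ (p / 2) ≤ 729 * n ^ 2 := by
  have hA2 : 0 ≤ A ^ 2 := sq_nonneg A
  have h6 : A ^ 2 ≤ Real.exp D := by
    rw [hA2D]
    have := Real.add_one_le_exp D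
    linarith
  have h7 : (A ^ 2) ^ (p / 2) ≤ (Real.exp D) ^ (p / 2) :=
    Real.rpow_le_rpow hA2 h6 (by linarith)
  rw [← Real.exp_mul] at h7
  refine h7.trans ?_
  have h8 : Real.exp (D * (p / 2)) ≤ Real.exp (2 * L + 6) :=
    Real.exp_le_exp.mpr (by rw [mul_comm]; exact hx)
  refine h8.trans ?_
  have h9 : Real.exp (2 * L + 6) = (Real.exp L) ^ 2 * (Real.exp 1) ^ 6 := by
    rw [← Real.exp_nat_mul, ← Real.exp_nat_mul, ← Real.exp_add]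
    congr 1
    push_cast
    ring
  rw [h9, hL, Real.exp_log (by linarith)]
  have h10 : (Real.exp 1) ^ 6 ≤ 3 ^ 6 := by
    refine pow_le_pow_left₀ (Real.exp_pos 1).le ?_ 6
    have := Real.exp_one_lt_d9
    linarith
  have h11 := mul_le_mul_of_nonneg_left h10 (sq_nonneg n)
  have e : n ^ 2 * 3 ^ 6 = 729 * n ^ 2 := by ring
  rw [e] at h11
  exact h11

theorem quad (k y A q c : ℝ) (hk : 0 < k) : 2 * A * q * (c * |y|) ≤
      k * y ^ 2 + A ^ 2 * q ^ 2 * (c ^ 2 / k) := by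
  have h6 : y ^ 2 = |y| ^ 2 := (sq_abs _).symm
  rw [h6]
  have h8 : k * |y| ^ 2 + A ^ 2 * q ^ 2 * (c ^ 2 / k) -
      2 * A * q * (c * |y|) = (k * |y| - A * q * c) ^ 2 / k := by
    field_simp
    ring
  have h9 : 0 ≤ (k * |y| - A * q * c) ^ 2 / k := by positivity
  linarith

theorem b2 (k0 σ q A D G Bn L S1 S2 S3 S4 y : ℝ) (hk0 : 0 < k0) (hq0 : 0 < q) (hA : 1 ≤ A)
    (hD : D = A ^ 2 - 1) (hk0q : k0 * σ = q)
    (hy : A ^ 2 - 2 * A * σ * (A + G) ≤ y ^ 2) (hlm : k0 * (y ^ 2 - 1) = S4 - S2)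
    (hG : G ≤ S1 + Bn * A) (hquad : 2 * A * q * S1 ≤ S2 + A ^ 2 * q ^ 2 * S3)
    (hS3 : S3 ≤ 2 * L + 9 / 2) (hS4 : S4 ≤ 2 * L + 1) :
    k0 * D ≤ 2 * q * A ^ 2 * (1 + Bn) + (2 * L + 1) + A ^ 2 * q ^ 2 * (2 * L + 9 / 2) := by
  have h6 : k0 * (D - 2 * A * σ * (A + G)) ≤ k0 * (y ^ 2 - 1) :=
    mul_le_mul_of_nonneg_left (by rw [hD]; linarith) hk0.le
  have h7 : k0 * (D - 2 * A * σ * (A + G)) = k0 * D - 2 * A * (k0 * σ) * (A + G) := by ring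
  rw [h7, hk0q] at h6
  have h8 : 2 * A * q * (A + G) ≤ 2 * A * q * (A + (S1 + Bn * A)) :=
    mul_le_mul_of_nonneg_left (by linarith) (by positivity)
  have h9 : 2 * A * q * (A + (S1 + Bn * A)) = 2 * q * A ^ 2 * (1 + Bn) + 2 * A * q * S1 := by
    ring
  have h10 : A ^ 2 * q ^ 2 * S3 ≤ A ^ 2 * q ^ 2 * (2 * L + 9 / 2) :=
    mul_le_mul_of_nonneg_left hS3 (by positivity)
  linarith

theorem main (h2 : S_KB) (h3 : S_LM) (h4 : S_REC) (h5 : S_SUM) : S_HIGH := by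
  intro n p hn hp γ hLam hA hγn hTT
  have hN1 : (1 : ℝ) ≤ n := by exact_mod_cast hn
  have hN2 : (1 : ℝ) ≤ (n : ℝ) ^ 2 := one_le_pow₀ hN1
  have hp1000 : 1000 ≤ p := by linarith
  have hp0 : 0 < p := by linarith
  obtain ⟨σ, hσ⟩ : ∃ σ : ℝ, σ = 1 / p := ⟨_, rfl⟩
  rw [← hσ] at hLam
  have hσ0 : 0 < σ := by rw [hσ]; positivity
  have hσp : σ * p = 1 := by rw [hσ]; field_simp
  have hσle : σ ≤ 1 / 1000 := by
    rw [hσ]
    exact one_div_le_one_div_of_le (by norm_num) hp1000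
  have hσn : σ * (1000 * (n : ℝ) ^ 2) ≤ 1 := by
    have := mul_le_mul_of_nonneg_left hp hσ0.le
    linarith
  obtain ⟨hk0, hk0p, hkj, hksum⟩ := h2 σ hσ0 (by linarith)
  have hlm := h3 σ n γ hσ0 (by linarith) hn hLam
  have hrec := h4 n σ γ hn hσ0 (by linarith)
  have hsum := h5 n σ hn hσ0 hσn
  have hks := hksum 1 n le_rfl hn
  obtain ⟨q, hq⟩ : ∃ q : ℝ, q = 1 / (1 - σ) := ⟨_, rfl⟩
  have h1σ : 0 < 1 - σ := by linarith
  have hqσ : q * (1 - σ) = 1 := by rw [hq]; field_simp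
  have hq0 : 0 < q := by rw [hq]; positivity
  have hk0q : kk σ 0 * σ = q := by
    rw [hk0, hq]
    field_simp
  have hq1 : q ≤ 1001 / 1000 + 1 / 10000 := by
    rw [hq, div_le_iff₀ h1σ]
    linarith
  have hq2 := a3 σ q hσ0 hσle hqσ
  have hk0pos : 0 < kk σ 0 := by
    have : 0 < 1 / σ := by positivity
    linarith
  have hL0 : 0 ≤ Real.log (n : ℝ) := Real.log_nonneg hN1
  have hLn : Real.log (n : ℝ) ≤ n - 1 := Real.log_le_sub_one_of_pos (by linarith)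
  have hks' : ∑ j ∈ Finset.Ico 1 n, kk σ j ≤ 2 * Real.log (n : ℝ) + 1 := by
    have h6 : (n : ℝ) / ((1 : ℕ) : ℝ) = n := by simp
    rw [h6] at hks
    have h7 : 0 ≤ 1 / (n : ℝ) := by positivity
    have h8 : 1 / ((1 : ℕ) : ℝ) = 1 := by simp
    rw [h8] at hks
    linarith
  have hy0 : yy σ γ 0 = γ 0 - σ * (γ 0 - γ 1) := by
    unfold yy th
    simp only [Nat.cast_zero, zero_add, mul_zero, div_one]
    ring
  have hy0sq := a4 (γ 0) σ (γ 1) hA hσ0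
  rw [← hy0] at hy0sq
  have hγnA : |γ n| ≤ γ 0 := by
    have h6 : |γ n| ≤ |γ 0| := sq_le_sq.mp hγn
    rwa [abs_of_nonneg (by linarith : 0 ≤ γ 0)] at h6
  have hBn0 : 0 ≤ (1 + 4 * σ * (n : ℝ)) / (n : ℝ) := by positivity
  have hBn1 := a5 σ n hσle hN1
  have hg1b : |γ 1| ≤ ∑ j ∈ Finset.Ico 1 n, 2 * ((1 + 4 * σ * (j : ℝ)) / (j : ℝ)) * |yy σ γ j|
      + (1 + 4 * σ * (n : ℝ)) / (n : ℝ) * γ 0 :=
    hrec.trans (add_le_add le_rfl (mul_le_mul_of_nonneg_left hγnA hBn0))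
  have hquad' := Finset.sum_le_sum (s := Finset.Ico 1 n)
    (fun j hj => quad (kk σ j) (yy σ γ j) (γ 0) q (2 * ((1 + 4 * σ * (j : ℝ)) / (j : ℝ)))
      (hkj j (Finset.mem_Ico.mp hj).1).1)
  rw [Finset.sum_add_distrib, ← Finset.mul_sum, ← Finset.mul_sum] at hquad'
  have hlm' : ∑ j ∈ Finset.Ico 1 n, kk σ j * (1 - (yy σ γ j) ^ 2)
      = ∑ j ∈ Finset.Ico 1 n, kk σ j - ∑ j ∈ Finset.Ico 1 n, kk σ j * (yy σ γ j) ^ 2 := by
    rw [← Finset.sum_sub_distrib]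
    exact Finset.sum_congr rfl fun j _ => by ring
  rw [hlm'] at hlm
  have hD0 : 0 ≤ (γ 0) ^ 2 - 1 := by
    have := one_le_pow₀ hA (n := 2)
    linarith
  have hm2 := b2 (kk σ 0) σ q (γ 0) ((γ 0) ^ 2 - 1) |γ 1| ((1 + 4 * σ * (n : ℝ)) / (n : ℝ))
    (Real.log n) _ _ _ _ _ hk0pos hq0 hA rfl hk0q hy0sq hlm hg1b hquad' hsum hks'
  have hm3 := b3 n σ (γ 0) (Real.log n) q _ _ hN1 hσ0 hσle hσn hL0 hLn hq0 hq1 hq2 hBn0 hBn1 hm2
  have hpk : p ≤ kk σ 0 := by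
    have : 1 / σ = p := by rw [hσ]; field_simp
    linarith
  have hA2D : (γ 0) ^ 2 = 1 + ((γ 0) ^ 2 - 1) := by ring
  have hx := b4 n p (Real.log n) ((γ 0) ^ 2 - 1) (kk σ 0) hN1 hp hL0 hLn hD0 hpk
    (by rw [← hA2D]; exact hm3)
  have hpow := b5 n p (Real.log n) (γ 0) ((γ 0) ^ 2 - 1) hN1 hp0 rfl hA2D hx
  have hph : ph (p / 2) ((γ 0) ^ 2) ≤ 729 * (n : ℝ) ^ 2 := by
    unfold ph
    have h6 : 0 ≤ p / 2 * ((γ 0) ^ 2 - 1) := mul_nonneg (by linarith) hD0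
    linarith
  refine hph.trans ?_
  have h6 : (p / 2 - 1) * 4 ≤ (p / 2 - 1) * TT n γ :=
    mul_le_mul_of_nonneg_left hTT (by linarith)
  refine le_trans ?_ h6
  linarith

end Pool.Agent.R223.RW.HIGHQ
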