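import Pool.Agent.R223.RW.Stm

/-!
Project RW (helper223): bounds of the weights.
-/

set_option autoImplicit false

namespace Pool.Agent.R223.RW.KB

open Pool.Agent.Y282.RB

lemma D_pos {σ x : ℝ} (h0 : 0 < σ) (h1 : σ < 1 / 2) (hx : 1 ≤ x) :
    0 < (x + σ) * (x + 1 - σ) := mul_pos (by linarith) (by linarith)

lemma D_eq (σ x : ℝ) : (x + σ) * (x + 1 - σ) = x * (x + 1) + σ * (1 - σ) := by ring

lemma kk_le {σ : ℝ} (h0 : 0 < σ) (h1 : σ < 1 / 2) {j : ℕ} (hj : 1 ≤ j) :
    kk σ j ≤ 1 / (j : ℝ) + 1 / ((j : ℝ) + 1) := by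
  have hx : (1 : ℝ) ≤ j := by exact_mod_cast hj
  have hs : 0 < σ * (1 - σ) := mul_pos h0 (by linarith)
  have hj0 : (0 : ℝ) < j := by linarith
  have h2 : 1 / (j : ℝ) + 1 / ((j : ℝ) + 1) = (2 * (j : ℝ) + 1) / ((j : ℝ) * ((j : ℝ) + 1)) := by
    field_simp
    ring
  rw [h2]
  unfold kk
  refine div_le_div_of_nonneg_left (by positivity) (by positivity) ?_
  rw [D_eq]
  linarith

theorem main : S_KB := by
  intro σ h0 h1
  have hs : 0 < σ * (1 - σ) := mul_pos h0 (by linarith)
  have hk0 : kk σ 0 = 1 / (σ * (1 - σ)) := by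
    unfold kk
    norm_num
  refine ⟨hk0, ?_, ?_, ?_⟩
  · rw [hk0]
    refine one_div_le_one_div_of_le hs ?_
    nlinarith
  · intro j hj
    have hx : (1 : ℝ) ≤ j := by exact_mod_cast hj
    have hD := D_pos h0 h1 hx
    have h2 : (0 : ℝ) < 2 * (j : ℝ) + 1 := by linarith
    refine ⟨div_pos h2 hD, kk_le h0 h1 hj, ?_, ?_⟩
    · unfold kk
      rw [div_mul_eq_mul_div, div_le_iff₀ hD, D_eq]
      nlinarith
    · unfold kk
      rw [one_div_div, div_le_iff₀ h2, D_eq]
      nlinarith [mul_pos h0 (by linarith : (0 : ℝ) < j)]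
  · intro a n ha han
    have ha0 : (0 : ℝ) < a := by exact_mod_cast ha
    induction n, han using Nat.le_induction with
    | base => simp [ha0.ne']
    | succ n hn ih =>
      have hn1 : 1 ≤ n := ha.trans hn
      have hn0 : (0 : ℝ) < n := by exact_mod_cast hn1
      rw [Finset.sum_Ico_succ_top hn]
      have h2 := kk_le h0 h1 hn1
      have h3 : Real.log (((n + 1 : ℕ) : ℝ) / a) =
          Real.log ((n : ℝ) / a) + Real.log (((n : ℝ) + 1) / n) := by
        rw [← Real.log_mul (by positivity) (by positivity)]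
        congr 1
        push_cast
        field_simp
      have h4 := Real.one_sub_inv_le_log_of_pos (show 0 < ((n : ℝ) + 1) / n by positivity)
      have h5 : 1 - (((n : ℝ) + 1) / n)⁻¹ = 1 / ((n : ℝ) + 1) := by
        field_simp
        ring
      rw [h5] at h4
      rw [h3]
      have h6 : 1 / (((n + 1 : ℕ) : ℝ)) = 1 / ((n : ℝ) + 1) := by push_cast; rfl
      rw [h6]
      linarith

end Pool.Agent.R223.RW.KB
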