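import Pool.Agent.R223.RW.Stm

/-! RW-LM (helper790): the normalisation. -/

set_option autoImplicit false

namespace Pool.Agent.R223.RW.LM

open Pool.Agent.Y282.RB Pool.Agent.R223.RW

theorem main : S_LM := by
  intro σ n γ _ _ hn h
  unfold Lam at h
  have h0 : KK σ n ≠ 0 := by
    intro h1
    rw [h1, div_zero] at h
    exact zero_ne_one h
  rw [div_eq_iff h0, one_mul] at h
  unfold KK at h
  rw [Finset.range_eq_Ico, Finset.sum_eq_sum_Ico_succ_bot (by omega : 0 < n),
    Finset.sum_eq_sum_Ico_succ_bot (by omega : 0 < n)] at h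
  have h2 : ∑ j ∈ Finset.Ico 1 n, kk σ j * (1 - (yy σ γ j) ^ 2) =
      ∑ j ∈ Finset.Ico 1 n, kk σ j - ∑ j ∈ Finset.Ico 1 n, kk σ j * (yy σ γ j) ^ 2 := by
    rw [← Finset.sum_sub_distrib]
    refine Finset.sum_congr rfl fun j _ => ?_
    ring
  rw [h2]
  simp only [Nat.zero_add] at h
  linarith

end Pool.Agent.R223.RW.LM
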