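import Pool.Agent.R223.RW.Stm

/-!
# Project RW, piece LOW: the case `γ_0 ≤ 1`
-/

set_option autoImplicit false

namespace Pool.Agent.R223.RW.LOW

open Pool.Agent.Y282.RB Pool.Agent.R223.RW

theorem exp_neg_le {t : ℝ} (ht : 0 ≤ t) : Real.exp (-t) ≤ 1 - t + t ^ 2 / 2 := by
  have h1 := Real.quadratic_le_exp_of_nonneg ht
  have h2 : 0 < 1 + t + t ^ 2 / 2 := by positivity
  rw [Real.exp_neg]
  have h3 : (Real.exp t)⁻¹ ≤ (1 + t + t ^ 2 / 2)⁻¹ := inv_anti₀ h2 h1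
  refine h3.trans ?_
  rw [inv_le_iff_one_le_mul₀ h2]
  have h4 : (1 - t + t ^ 2 / 2) * (1 + t + t ^ 2 / 2) = 1 + (t ^ 2) ^ 2 / 4 := by ring
  nlinarith [sq_nonneg (t ^ 2)]

theorem ph_bounds {r A : ℝ} (hr : 1 ≤ r) (hA0 : 0 ≤ A) (hA1 : A ≤ 1) :
    ph r (A ^ 2) ≤ (r - 1) * (1 - A ^ 2) ∧ ph r (A ^ 2) ≤ (r * (1 - A ^ 2)) ^ 2 / 2 := by
  have hA2 : 0 ≤ A ^ 2 := sq_nonneg A
  have hA3 : A ^ 2 ≤ 1 := by nlinarith
  have h1 : (A ^ 2) ^ r ≤ A ^ 2 := by
    have h2 := Real.rpow_le_rpow_of_exponent_ge' hA2 hA3 zero_le_one hr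
    rwa [Real.rpow_one] at h2
  have h2 : (A ^ 2) ^ r ≤ Real.exp (-(r * (1 - A ^ 2))) := by
    have h3 : A ^ 2 ≤ Real.exp (-(1 - A ^ 2)) := by
      have h4 := Real.add_one_le_exp (-(1 - A ^ 2))
      linarith
    calc (A ^ 2) ^ r ≤ (Real.exp (-(1 - A ^ 2))) ^ r := Real.rpow_le_rpow hA2 h3 (by linarith)
      _ = Real.exp (-(r * (1 - A ^ 2))) := by
          rw [← Real.exp_mul]
          congr 1
          ring
  have h3 := exp_neg_le (t := r * (1 - A ^ 2)) (mul_nonneg (by linarith) (by linarith))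
  unfold ph
  constructor
  · nlinarith
  · nlinarith

theorem main (h1 : S_DIFF) (h2 : S_KB) (h3 : S_LM) : S_LOW := by
  intro n p hn hp γ hL hA0 hA1
  have hn1 : (1 : ℝ) ≤ n := by exact_mod_cast hn
  have hn2 : (1 : ℝ) ≤ (n : ℝ) ^ 2 := by nlinarith
  have hp1 : 1000 ≤ p := by linarith
  have hp0 : 0 < p := by linarith
  set s : ℝ := 1 / p with hsdef
  have hps : p * s = 1 := by
    rw [hsdef]
    field_simp
  have hs0 : 0 < s := by positivity
  have hs2 : s ≤ 1 / 1000 := by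
    rw [hsdef]
    exact one_div_le_one_div_of_le (by norm_num) hp1
  have hs1 : s < 1 / 2 := by linarith
  have hTT : 0 ≤ TT n γ := Finset.sum_nonneg fun j _ => by positivity
  set S : ℝ := Real.sqrt (TT n γ) with hS
  have hSS : S ^ 2 = TT n γ := Real.sq_sqrt hTT
  have hS0 : 0 ≤ S := Real.sqrt_nonneg _
  obtain ⟨-, hd⟩ := h1 n γ
  obtain ⟨hdj, hd0⟩ := hd s hs0 hs1
  have hd0 := hd0 hn
  obtain ⟨hk0, hk0', hkj, -⟩ := h2 s hs0 hs1
  have hlm := h3 s n γ hs0 hs1 hn hL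
  set A : ℝ := γ 0 with hA
  -- the sum
  have hterm : ∀ j ∈ Finset.Ico 1 n, kk s j * (yy s γ j ^ 2 - 1) ≤ 6 * S + 3 * n * S ^ 2 := by
    intro j hj
    obtain ⟨hj1, hj2⟩ := Finset.mem_Ico.1 hj
    have hjn : (j : ℝ) + 1 ≤ n := by exact_mod_cast hj2
    have hj0 : (0 : ℝ) ≤ j := Nat.cast_nonneg j
    obtain ⟨hkp, -, hk3, -⟩ := hkj j hj1
    have ha := abs_le.1 (hdj j hj2)
    set w : ℝ := ((j : ℝ) + 1) * S with hw
    have hw0 : 0 ≤ w := by positivity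
    have hy1 : yy s γ j ≤ 1 + w := by linarith [ha.1]
    have hy2 : -(1 + w) ≤ yy s γ j := by linarith [ha.2]
    have hy : yy s γ j ^ 2 ≤ (1 + w) ^ 2 := sq_le_sq' hy2 hy1
    have hy' : yy s γ j ^ 2 - 1 ≤ ((j : ℝ) + 1) * (2 * S + w * S) := by
      have h4 : (1 + w) ^ 2 - 1 = ((j : ℝ) + 1) * (2 * S + w * S) := by
        rw [hw]
        ring
      linarith
    have hww : 0 ≤ 2 * S + w * S := by positivity
    calc kk s j * (yy s γ j ^ 2 - 1) ≤ kk s j * (((j : ℝ) + 1) * (2 * S + w * S)) :=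
          mul_le_mul_of_nonneg_left hy' hkp.le
      _ = (kk s j * ((j : ℝ) + 1)) * (2 * S + w * S) := by ring
      _ ≤ 3 * (2 * S + w * S) := mul_le_mul_of_nonneg_right hk3 hww
      _ ≤ 6 * S + 3 * n * S ^ 2 := by
          have h4 : w * S ≤ n * S ^ 2 := by
            rw [hw]
            have h5 : ((j : ℝ) + 1) * S * S = ((j : ℝ) + 1) * S ^ 2 := by ring
            rw [h5]
            exact mul_le_mul_of_nonneg_right hjn (sq_nonneg S)
          linarith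
  have hsum : ∑ j ∈ Finset.Ico 1 n, kk s j * (yy s γ j ^ 2 - 1) ≤
      ((n : ℝ) - 1) * (6 * S + 3 * n * S ^ 2) := by
    refine (Finset.sum_le_sum hterm).trans (le_of_eq ?_)
    rw [Finset.sum_const, Nat.card_Ico, nsmul_eq_mul, Nat.cast_sub hn, Nat.cast_one]
  have hlm' : kk s 0 * (1 - yy s γ 0 ^ 2) = ∑ j ∈ Finset.Ico 1 n, kk s j * (yy s γ j ^ 2 - 1) := by
    have h4 : ∑ j ∈ Finset.Ico 1 n, kk s j * (yy s γ j ^ 2 - 1) =
        -∑ j ∈ Finset.Ico 1 n, kk s j * (1 - yy s γ j ^ 2) := by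
      rw [← Finset.sum_neg_distrib]
      exact Finset.sum_congr rfl fun j _ => by ring
    rw [h4, ← hlm]
    ring
  -- the first term
  have hk0s : kk s 0 * s ≤ 101 / 100 := by
    rw [hk0]
    have h4 : 1 / (s * (1 - s)) * s = 1 / (1 - s) := by
      have h5 : (1 - s) ≠ 0 := by linarith
      field_simp
    rw [h4, div_le_iff₀ (by linarith)]
    linarith
  have hkpos : 0 < kk s 0 := lt_of_lt_of_le (by positivity) hk0'
  have hy0 : yy s γ 0 ^ 2 - A ^ 2 ≤ s * (2 * S + s * S ^ 2) := by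
    have ha := abs_le.1 hd0
    have hsS : 0 ≤ s * S := by positivity
    have hy : yy s γ 0 ^ 2 ≤ (A + s * S) ^ 2 := sq_le_sq' (by linarith [ha.2]) (by linarith [ha.1])
    nlinarith
  have hfirst : kk s 0 * (yy s γ 0 ^ 2 - A ^ 2) ≤ 101 / 100 * (2 * S + s * S ^ 2) := by
    have hnn : 0 ≤ 2 * S + s * S ^ 2 := by positivity
    calc kk s 0 * (yy s γ 0 ^ 2 - A ^ 2) ≤ kk s 0 * (s * (2 * S + s * S ^ 2)) :=
          mul_le_mul_of_nonneg_left hy0 hkpos.le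
      _ = (kk s 0 * s) * (2 * S + s * S ^ 2) := by ring
      _ ≤ 101 / 100 * (2 * S + s * S ^ 2) := mul_le_mul_of_nonneg_right hk0s hnn
  set D : ℝ := 1 - A ^ 2 with hD
  have hD0 : 0 ≤ D := by nlinarith
  have hps' : 1 / s = p := by
    rw [div_eq_iff hs0.ne', hps]
  set X : ℝ := n * S with hX
  have hX0 : 0 ≤ X := by positivity
  have hpD : p * D ≤ 6 * X + 3 * X ^ 2 := by
    have h4 : p * D ≤ kk s 0 * D := by
      rw [← hps']
      exact mul_le_mul_of_nonneg_right hk0' hD0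
    have h5 : kk s 0 * D = kk s 0 * (1 - yy s γ 0 ^ 2) + kk s 0 * (yy s γ 0 ^ 2 - A ^ 2) := by
      rw [hD]
      ring
    rw [hlm'] at h5
    have h6 : 101 / 100 * (2 * S + s * S ^ 2) + ((n : ℝ) - 1) * (6 * S + 3 * n * S ^ 2) ≤
        6 * X + 3 * X ^ 2 := by
      rw [hX]
      have h7 : 101 / 100 * s * S ^ 2 ≤ 3 * n * S ^ 2 :=
        mul_le_mul_of_nonneg_right (by nlinarith) (sq_nonneg S)
      nlinarith
    linarith
  obtain ⟨hph1, hph2⟩ := ph_bounds (r := p / 2) (by linarith) hA0 hA1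
  have hXX : X ^ 2 = (n : ℝ) ^ 2 * TT n γ := by
    rw [hX, mul_pow, hSS]
  rcases le_or_gt 1 X with hX1 | hX1
  · -- `X ≥ 1`
    have h4 : p * D ≤ 9 * X ^ 2 := by nlinarith
    have h5 : p * D ≤ p * TT n γ := by
      have h6 : 9 * (n : ℝ) ^ 2 ≤ p := by linarith
      have h7 : 9 * (n : ℝ) ^ 2 * TT n γ ≤ p * TT n γ := mul_le_mul_of_nonneg_right h6 hTT
      rw [hXX] at h4
      linarith
    have h6 : D ≤ TT n γ := le_of_mul_le_mul_left h5 hp0
    exact hph1.trans (mul_le_mul_of_nonneg_left h6 (by linarith))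
  · -- `X < 1`
    have h4 : p * D ≤ 9 * X := by nlinarith
    have h5 : (p / 2 * D) ^ 2 / 2 ≤ 11 * X ^ 2 := by
      have h6 : 0 ≤ p * D := by positivity
      have h7 : (p * D) ^ 2 ≤ (9 * X) ^ 2 := pow_le_pow_left₀ h6 h4 2
      nlinarith
    refine hph2.trans (h5.trans ?_)
    rw [hXX]
    have h6 : 11 * (n : ℝ) ^ 2 ≤ p / 2 - 1 := by linarith
    have h7 := mul_le_mul_of_nonneg_right h6 hTT
    linarith

end Pool.Agent.R223.RW.LOW
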