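import Pool.Agent.R223.RW.Stm

/-! Project RW: the case `γ_0 ≥ 1`, `TT ≤ 4`. -/

set_option autoImplicit false

namespace Pool.Agent.R223.RW.MID

open Pool.Agent.Y282.RB Pool.Agent.R223.RW

theorem exp_bd : Real.exp (329 / 100) ≤ 31 := by
  have h1 : Real.exp (329 / 100) = Real.exp 1 ^ 3 * Real.exp (29 / 100) := by
    rw [← Real.exp_nat_mul, ← Real.exp_add]; norm_num
  have h2 : Real.exp (29 / 100) ≤ 3 / 2 := by
    have h0 := Real.add_one_le_exp (-(29 / 100 : ℝ))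
    have h3 : Real.exp (29 / 100) * Real.exp (-(29 / 100)) = 1 := by
      rw [← Real.exp_add]; norm_num
    nlinarith [Real.exp_pos (29 / 100)]
  have h4 := Real.exp_one_lt_d9
  have h5 : Real.exp 1 ^ 3 ≤ 2.7182818286 ^ 3 :=
    pow_le_pow_left₀ (Real.exp_pos 1).le h4.le 3
  have h6 : (2.7182818286 : ℝ) ^ 3 ≤ 20.1 := by norm_num
  rw [h1]
  calc Real.exp 1 ^ 3 * Real.exp (29 / 100) ≤ 20.1 * (3 / 2) :=
        mul_le_mul (h5.trans h6) h2 (Real.exp_pos _).le (by norm_num)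
    _ ≤ 31 := by norm_num

theorem ph_le {r D : ℝ} (hr : 0 ≤ r) (hD : 0 ≤ D) :
    ph r (1 + D) ≤ Real.exp (r * D) - 1 - r * D := by
  have h1 : (1 + D) ^ r ≤ Real.exp (r * D) := by
    rw [mul_comm, Real.exp_mul]
    exact Real.rpow_le_rpow (by linarith) (by linarith [Real.add_one_le_exp D]) hr
  unfold ph
  have h2 : r * (1 + D - 1) = r * D := by ring
  linarith

theorem main (h1 : S_DIFF) (h2 : S_KB) (h3 : S_LM) : S_MID := by
  intro n p hn hp γ hL hA hT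
  have hn' : (1 : ℝ) ≤ n := by exact_mod_cast hn
  have hn2 : (1 : ℝ) ≤ (n : ℝ) ^ 2 := by nlinarith
  have hnn : (n : ℝ) ≤ (n : ℝ) ^ 2 := by nlinarith
  have hp0 : 0 < p := by nlinarith
  obtain ⟨σ, hσ⟩ : ∃ σ, σ = 1 / p := ⟨_, rfl⟩
  rw [← hσ] at hL
  have hσ0 : 0 < σ := by rw [hσ]; positivity
  have hσp : σ * p = 1 := by rw [hσ]; field_simp
  have hσ1 : σ * (1000 * (n : ℝ) ^ 2) ≤ 1 := by
    rw [← hσp]; exact mul_le_mul_of_nonneg_left hp hσ0.le
  have hσ2 : σ ≤ 1 / 1000 := by nlinarith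
  have hσn : σ * n ≤ 1 / 1000 := by nlinarith
  have hσh : σ < 1 / 2 := by linarith
  have hT0 : 0 ≤ TT n γ := by
    unfold TT
    exact Finset.sum_nonneg fun j _ => by positivity
  obtain ⟨hd1, hd2⟩ := h1 n γ
  obtain ⟨hd2, hd3⟩ := hd2 σ hσ0 hσh
  have hd3 := hd3 hn
  obtain ⟨S, hS⟩ : ∃ S, S = Real.sqrt (TT n γ) := ⟨_, rfl⟩
  rw [← hS] at hd3
  rw [← hS] at hd2
  have hS0 : 0 ≤ S := by rw [hS]; exact Real.sqrt_nonneg _
  have hSS : S ^ 2 = TT n γ := by rw [hS]; exact Real.sq_sqrt hT0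
  have hS2 : S ≤ 2 := by
    rw [hS]; exact Real.sqrt_le_iff.mpr ⟨by norm_num, by linarith⟩
  obtain ⟨hk0, hk0', hkj, hksum⟩ := h2 σ hσ0 hσh
  have hLM := h3 σ n γ hσ0 hσh hn hL
  obtain ⟨A, hAe⟩ : ∃ A, A = γ 0 := ⟨_, rfl⟩
  rw [← hAe] at hA hd2 hd3 ⊢
  obtain ⟨y, hy⟩ : ∃ y, y = yy σ γ 0 := ⟨_, rfl⟩
  rw [← hy] at hd3 hLM
  have hσS : σ * S ≤ 1 / 500 := by nlinarith
  have hσS0 : 0 ≤ σ * S := by positivity
  have hy1 : A - σ * S ≤ y := by linarith [(abs_le.mp hd3).2]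
  have hsq : A ^ 2 - 2 * A * (σ * S) ≤ y ^ 2 := by nlinarith
  have hterm : ∀ j, 1 ≤ j → j < n → kk σ j * (1 - (yy σ γ j) ^ 2) ≤ 6 * S := by
    intro j hj1 hjn
    obtain ⟨e1, e2, e3, e4⟩ := hkj j hj1
    have e5 := (abs_le.mp (hd2 j hjn)).2
    have e6 : 1 - (yy σ γ j) ^ 2 ≤ 2 * (((j : ℝ) + 1) * S) := by
      nlinarith [sq_nonneg (1 - yy σ γ j)]
    calc kk σ j * (1 - (yy σ γ j) ^ 2) ≤ kk σ j * (2 * (((j : ℝ) + 1) * S)) :=
          mul_le_mul_of_nonneg_left e6 e1.le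
      _ = 2 * (kk σ j * ((j : ℝ) + 1)) * S := by ring
      _ ≤ 2 * 3 * S := by gcongr
      _ = 6 * S := by ring
  have hsum : ∀ a : ℕ, 1 ≤ a → a ≤ n →
      ∑ j ∈ Finset.Ico 1 n, kk σ j * (1 - (yy σ γ j) ^ 2) ≤
      6 * S * ((a : ℝ) - 1) + (2 * Real.log ((n : ℝ) / (a : ℝ)) + 1 / (a : ℝ) - 1 / (n : ℝ)) := by
    intro a ha1 han
    rw [← Finset.sum_Ico_consecutive _ ha1 han]
    apply add_le_add
    · calc ∑ j ∈ Finset.Ico 1 a, kk σ j * (1 - (yy σ γ j) ^ 2)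
          ≤ ∑ _j ∈ Finset.Ico 1 a, 6 * S := by
            refine Finset.sum_le_sum fun j hj => ?_
            rw [Finset.mem_Ico] at hj
            exact hterm j hj.1 (lt_of_lt_of_le hj.2 han)
        _ = 6 * S * ((a : ℝ) - 1) := by
            rw [Finset.sum_const, Nat.card_Ico, nsmul_eq_mul, Nat.cast_sub ha1]
            push_cast; ring
    · refine le_trans (Finset.sum_le_sum fun j hj => ?_) (hksum a n ha1 han)
      rw [Finset.mem_Ico] at hj
      obtain ⟨e1, -⟩ := hkj j (ha1.trans hj.1)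
      nlinarith [mul_nonneg e1.le (sq_nonneg (yy σ γ j))]
  have hkpos : 0 < kk σ 0 := lt_of_lt_of_le (by positivity) hk0'
  have hpk : p ≤ kk σ 0 := by
    have : 1 / σ = p := by rw [hσ]; field_simp
    rw [← this]; exact hk0'
  have hA1 : A ≤ 251 / 250 := by
    have e1 := hsum 1 le_rfl hn
    rw [← hLM] at e1
    have e2 : Real.log ((n : ℝ) / ((1 : ℕ) : ℝ)) ≤ n - 1 := by
      rw [Nat.cast_one, div_one]
      exact Real.log_le_sub_one_of_pos (by linarith)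
    have e3 : (0 : ℝ) ≤ 1 / (n : ℝ) := by positivity
    have e4 : kk σ 0 * (y ^ 2 - 1) ≤ 2 * n := by
      have e5 : 6 * S * (((1 : ℕ) : ℝ) - 1) = 0 := by push_cast; ring
      have e6 : (1 : ℝ) / ((1 : ℕ) : ℝ) = 1 := by norm_num
      rw [e5, e6] at e1
      linarith
    have e7 : y ^ 2 - 1 ≤ 2 / 1000 := by
      by_contra hc
      have hc' : 2 / 1000 < y ^ 2 - 1 := lt_of_not_ge hc
      have e8 : p * (y ^ 2 - 1) ≤ 2 * n :=
        (mul_le_mul_of_nonneg_right hpk (by linarith)).trans e4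
      have e9 : σ * (p * (y ^ 2 - 1)) ≤ σ * (2 * n) := mul_le_mul_of_nonneg_left e8 hσ0.le
      rw [← mul_assoc, hσp, one_mul] at e9
      have e10 : σ * (2 * n) = 2 * (σ * n) := by ring
      linarith
    by_contra hc
    have hc' : (251 / 250 : ℝ) < A := lt_of_not_ge hc
    have e10 : 501 / 500 < y := by linarith
    have e11 := mul_self_lt_mul_self (by norm_num : (0 : ℝ) ≤ 501 / 500) e10
    have e12 : y ^ 2 = y * y := sq y
    norm_num at e11
    linarith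
  obtain ⟨D, hD⟩ : ∃ D, D = A ^ 2 - 1 := ⟨_, rfl⟩
  have hD0 : 0 ≤ D := by nlinarith
  obtain ⟨x, hx⟩ : ∃ x, x = p / 2 * D := ⟨_, rfl⟩
  have hx0 : 0 ≤ x := by rw [hx]; positivity
  have hk0σ : kk σ 0 * σ ≤ 501 / 500 := by
    rw [hk0]
    have e1 : 1 / (σ * (1 - σ)) * σ = 1 / (1 - σ) := by
      have : (1 - σ) ≠ 0 := by linarith
      field_simp
    rw [e1, div_le_iff₀ (by linarith)]
    linarith
  have hxb : ∀ a : ℕ, 1 ≤ a → a ≤ n → x ≤ 51 / 50 * S + 3 * S * ((a : ℝ) - 1) +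
      Real.log ((n : ℝ) / (a : ℝ)) + (1 / (a : ℝ) - 1 / (n : ℝ)) / 2 := by
    intro a ha1 han
    have e1 := hsum a ha1 han
    rw [← hLM] at e1
    have e2 : kk σ 0 * D ≤ kk σ 0 * (y ^ 2 - 1) + kk σ 0 * (2 * A * (σ * S)) := by
      rw [← mul_add]
      refine mul_le_mul_of_nonneg_left ?_ hkpos.le
      rw [hD]; linarith
    have e3 : kk σ 0 * (2 * A * (σ * S)) ≤ 51 / 25 * S := by
      have e4 : kk σ 0 * (2 * A * (σ * S)) = 2 * A * (kk σ 0 * σ) * S := by ring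
      rw [e4]
      refine mul_le_mul_of_nonneg_right ?_ hS0
      have e5 : 0 ≤ kk σ 0 * σ := by positivity
      calc 2 * A * (kk σ 0 * σ) ≤ 2 * (251 / 250) * (501 / 500) := by gcongr
        _ ≤ 51 / 25 := by norm_num
    have e6 : p * D ≤ kk σ 0 * D := mul_le_mul_of_nonneg_right hpk hD0
    rw [hx]
    linarith
  have hph : ph (p / 2) (A ^ 2) ≤ Real.exp x - 1 - x := by
    have e1 := ph_le (r := p / 2) (by positivity) hD0
    have e2 : 1 + D = A ^ 2 := by rw [hD]; ring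
    rw [e2, ← hx] at e1
    exact e1
  refine hph.trans ?_
  rw [← hSS]
  have hpn : 499 * (n : ℝ) ^ 2 ≤ p / 2 - 1 := by nlinarith
  rcases le_or_gt ((n : ℝ) * S) (1 / 4) with hc | hc
  · have e1 := hxb n hn le_rfl
    have e2 : (n : ℝ) / n = 1 := div_self (by linarith)
    rw [e2, Real.log_one] at e1
    have e3 : x ≤ 3 * (n * S) := by nlinarith
    have e4 : x ≤ 1 := by linarith
    have e5 : |x| ≤ 1 := by rw [abs_of_nonneg hx0]; exact e4
    have e6 := Real.abs_exp_sub_one_sub_id_le e5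
    have e7 := (abs_le.mp e6).2
    have e8 : x ^ 2 ≤ 9 * (n : ℝ) ^ 2 * S ^ 2 := by
      have : x ^ 2 ≤ (3 * (n * S)) ^ 2 := pow_le_pow_left₀ hx0 e3 2
      nlinarith
    have e9 : 9 * (n : ℝ) ^ 2 * S ^ 2 ≤ (p / 2 - 1) * S ^ 2 := by
      refine mul_le_mul_of_nonneg_right ?_ (sq_nonneg S)
      nlinarith
    linarith
  · have hSpos : 0 < S := by
      rcases hS0.lt_or_eq with h | h
      · exact h
      · rw [← h] at hc; norm_num at hc
    have hfl : (⌊1 / (4 * S)⌋₊ : ℝ) ≤ 1 / (4 * S) := Nat.floor_le (by positivity)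
    have hfl2 : 1 / (4 * S) < (⌊1 / (4 * S)⌋₊ : ℝ) + 1 := Nat.lt_floor_add_one _
    obtain ⟨b, hb⟩ : ∃ b, b = ⌊1 / (4 * S)⌋₊ := ⟨_, rfl⟩
    rw [← hb] at hfl hfl2
    have hbn : b + 1 ≤ n := by
      have e1 : (b : ℝ) < n := by
        refine lt_of_le_of_lt hfl ?_
        rw [div_lt_iff₀ (by positivity)]
        linarith
      have e2 : b < n := by exact_mod_cast e1
      omega
    have e1 := hxb (b + 1) (by omega) hbn
    have e2 : (b : ℝ) * S ≤ 1 / 4 := by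
      have : (b : ℝ) * S ≤ 1 / (4 * S) * S := mul_le_mul_of_nonneg_right hfl hS0
      have e3 : 1 / (4 * S) * S = 1 / 4 := by field_simp
      linarith
    have hb1 : (0 : ℝ) < ((b + 1 : ℕ) : ℝ) := by positivity
    have e3 : (n : ℝ) / ((b + 1 : ℕ) : ℝ) ≤ 4 * (n * S) := by
      rw [div_le_iff₀ hb1]
      push_cast
      have e4 : 1 < 4 * S * ((b : ℝ) + 1) := by
        have := (div_lt_iff₀ (by positivity : (0 : ℝ) < 4 * S)).mp hfl2
        linarith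
      nlinarith
    have e4 : Real.log ((n : ℝ) / ((b + 1 : ℕ) : ℝ)) ≤ Real.log (4 * (n * S)) :=
      Real.log_le_log (by positivity) e3
    have e5 : 1 / ((b + 1 : ℕ) : ℝ) ≤ 1 := by
      rw [div_le_one hb1]; push_cast; linarith [Nat.cast_nonneg (α := ℝ) b]
    have e6 : (0 : ℝ) ≤ 1 / (n : ℝ) := by positivity
    have e7 : 3 * S * (((b + 1 : ℕ) : ℝ) - 1) ≤ 3 / 4 := by
      push_cast
      nlinarith
    have e8 : x ≤ 329 / 100 + Real.log (4 * (n * S)) := by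
      linarith
    have e9 : Real.exp x ≤ 31 * (4 * (n * S)) := by
      calc Real.exp x ≤ Real.exp (329 / 100 + Real.log (4 * (n * S))) := Real.exp_le_exp.mpr e8
        _ = Real.exp (329 / 100) * (4 * (n * S)) := by
            rw [Real.exp_add, Real.exp_log (by positivity)]
        _ ≤ 31 * (4 * (n * S)) := mul_le_mul_of_nonneg_right exp_bd (by positivity)
    have e10 : 31 * (4 * (n * S)) ≤ 499 * (n * S) ^ 2 := by nlinarith
    have e11 : 499 * ((n : ℝ) * S) ^ 2 ≤ (p / 2 - 1) * S ^ 2 := by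
      have : 499 * ((n : ℝ) * S) ^ 2 = 499 * (n : ℝ) ^ 2 * S ^ 2 := by ring
      rw [this]
      exact mul_le_mul_of_nonneg_right hpn (sq_nonneg S)
    linarith

end Pool.Agent.R223.RW.MID
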