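import Pool.Agent.R223.RW.Stm

/-!
# RW-REC (helper139): the backward recursion
-/

set_option autoImplicit false

namespace Pool.Agent.R223.RW.REC

open Pool.Agent.Y282.RB

theorem step (σ x a b : ℝ) (hx : 1 ≤ x) (hσ : 0 < σ) (hσ2 : σ ≤ 1 / 8) :
    (1 + 4 * σ * x) / x * |a| ≤
      2 * ((1 + 4 * σ * x) / x) *
        |(x + 1 - σ) / (2 * x + 1) * a + (1 - (x + 1 - σ) / (2 * x + 1)) * b| +
      (1 + 4 * σ * (x + 1)) / (x + 1) * |b| := by
  have h1 : 0 < x + 1 - σ := by linarith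
  have h2 : 0 < 2 * x + 1 := by linarith
  have h3 : 0 < x := by linarith
  set y : ℝ := (x + 1 - σ) / (2 * x + 1) * a + (1 - (x + 1 - σ) / (2 * x + 1)) * b with hy
  have e : (2 * x + 1) * y = (x + 1 - σ) * a + (x + σ) * b := by
    rw [hy]
    field_simp
    ring
  have h4 : (x + 1 - σ) * |a| ≤ (2 * x + 1) * |y| + (x + σ) * |b| := by
    have e2 : (x + 1 - σ) * a = (2 * x + 1) * y - (x + σ) * b := by rw [e]; ring
    have h5 := abs_sub ((2 * x + 1) * y) ((x + σ) * b)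
    rw [← e2, abs_mul, abs_mul, abs_mul, abs_of_pos h1, abs_of_pos h2,
      abs_of_pos (by linarith : 0 < x + σ)] at h5
    exact h5
  have hB : 0 < (1 + 4 * σ * x) / x := by positivity
  have h6 : |a| ≤ 2 * |y| + (x + σ) / (x + 1 - σ) * |b| := by
    have h7 : (x + 1 - σ) * |a| ≤ (x + 1 - σ) * (2 * |y| + (x + σ) / (x + 1 - σ) * |b|) := by
      have e3 : (x + 1 - σ) * (2 * |y| + (x + σ) / (x + 1 - σ) * |b|) =
          2 * (x + 1 - σ) * |y| + (x + σ) * |b| := by
        field_simp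
      rw [e3]
      have h8 : (2 * x + 1) * |y| ≤ 2 * (x + 1 - σ) * |y| :=
        mul_le_mul_of_nonneg_right (by linarith) (abs_nonneg y)
      linarith
    exact le_of_mul_le_mul_left h7 h1
  have h9 : (1 + 4 * σ * x) / x * ((x + σ) / (x + 1 - σ)) ≤ (1 + 4 * σ * (x + 1)) / (x + 1) := by
    rw [div_mul_div_comm, div_le_div_iff₀ (by positivity) (by positivity)]
    have h10 : 0 ≤ σ * (4 * x ^ 2 + 2 * x - 1 - σ * (8 * x ^ 2 + 8 * x)) := by
      refine mul_nonneg hσ.le ?_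
      have h11 : σ * (8 * x ^ 2 + 8 * x) ≤ 1 / 8 * (8 * x ^ 2 + 8 * x) :=
        mul_le_mul_of_nonneg_right hσ2 (by positivity)
      nlinarith
    nlinarith
  calc (1 + 4 * σ * x) / x * |a|
      ≤ (1 + 4 * σ * x) / x * (2 * |y| + (x + σ) / (x + 1 - σ) * |b|) :=
        mul_le_mul_of_nonneg_left h6 hB.le
    _ = 2 * ((1 + 4 * σ * x) / x) * |y| +
        (1 + 4 * σ * x) / x * ((x + σ) / (x + 1 - σ)) * |b| := by ring
    _ ≤ _ := by
        have := mul_le_mul_of_nonneg_right h9 (abs_nonneg b)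
        linarith

theorem main : S_REC := by
  intro n σ γ hn hσ hσ2
  induction n, hn using Nat.le_induction with
  | base =>
    rw [Finset.Ico_self, Finset.sum_empty, zero_add]
    push_cast
    have h1 : (1 : ℝ) ≤ (1 + 4 * σ * 1) / 1 := by
      rw [div_one]
      linarith
    nlinarith [abs_nonneg (γ 1)]
  | succ m hm ih =>
    have hm' : (1 : ℝ) ≤ m := by exact_mod_cast hm
    have h1 := step σ m (γ m) (γ (m + 1)) hm' hσ hσ2
    have e : yy σ γ m = ((m : ℝ) + 1 - σ) / (2 * m + 1) * γ m +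
        (1 - ((m : ℝ) + 1 - σ) / (2 * m + 1)) * γ (m + 1) := rfl
    rw [Finset.sum_Ico_succ_top hm, e]
    push_cast
    linarith

end Pool.Agent.R223.RW.REC
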