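import Pool.Agent.R223.RW.Stm

/-! RW-SUM: the sum in the large case. -/

set_option autoImplicit false

namespace Pool.Agent.R223.RW.Sum

open Pool.Agent.Y282.RB

theorem step (m : ℕ) (hm : 1 ≤ m) : 2 / (m : ℝ) + (251 / 250) / (m : ℝ) ^ 2 ≤
    2 * (Real.log ((m + 1 : ℕ) : ℝ) - Real.log (m : ℝ)) +
      (401 / 100) * (1 / (m : ℝ) - 1 / ((m + 1 : ℕ) : ℝ)) := by
  have hm' : (1 : ℝ) ≤ m := by exact_mod_cast hm
  have hm0 : (0 : ℝ) < m := by linarith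
  have h1 : 1 / ((m : ℝ) + 1) ≤ Real.log ((m + 1 : ℕ) : ℝ) - Real.log (m : ℝ) := by
    rw [← Real.log_div (by positivity) hm0.ne']
    have h := Real.one_sub_inv_le_log_of_pos (x := ((m + 1 : ℕ) : ℝ) / (m : ℝ)) (by positivity)
    refine le_trans (le_of_eq ?_) h
    push_cast
    field_simp
    ring
  have h2 : 2 / (m : ℝ) + (251 / 250) / (m : ℝ) ^ 2 ≤
      2 * (1 / ((m : ℝ) + 1)) + (401 / 100) * (1 / (m : ℝ) - 1 / ((m : ℝ) + 1)) := by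
    have e : 2 * (1 / ((m : ℝ) + 1)) + (401 / 100) * (1 / (m : ℝ) - 1 / ((m : ℝ) + 1)) -
        (2 / (m : ℝ) + (251 / 250) / (m : ℝ) ^ 2) =
        ((201 / 100) * (m : ℝ) - (251 / 250) * ((m : ℝ) + 1)) / ((m : ℝ) ^ 2 * ((m : ℝ) + 1)) := by
      field_simp
      ring
    have : 0 ≤ ((201 / 100) * (m : ℝ) - (251 / 250) * ((m : ℝ) + 1)) /
        ((m : ℝ) ^ 2 * ((m : ℝ) + 1)) :=
      div_nonneg (by linarith) (by positivity)
    linarith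
  push_cast at h1 ⊢
  linarith

theorem sum1 (n : ℕ) (hn : 1 ≤ n) :
    ∑ j ∈ Finset.Ico 1 n, (2 / (j : ℝ) + (251 / 250) / (j : ℝ) ^ 2) ≤
      2 * Real.log (n : ℝ) + (401 / 100) * (1 - 1 / (n : ℝ)) := by
  induction n, hn using Nat.le_induction with
  | base => simp
  | succ n hn ih =>
    rw [Finset.sum_Ico_succ_top hn]
    have := step n hn
    linarith

theorem main (h2 : S_KB) : S_SUM := by
  intro n σ hn hσ h
  have hn' : (1 : ℝ) ≤ n := by exact_mod_cast hn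
  have hn2 : (1 : ℝ) ≤ (n : ℝ) ^ 2 := by nlinarith
  have hσ1 : σ ≤ 1 / 1000 := by nlinarith
  have hσn : σ * (1000 * (n : ℝ)) ≤ 1 / (n : ℝ) := by
    rw [le_div_iff₀ (by linarith)]
    nlinarith
  obtain ⟨-, -, hk, -⟩ := h2 σ hσ (by linarith)
  have hterm : ∀ j ∈ Finset.Ico 1 n,
      (2 * ((1 + 4 * σ * (j : ℝ)) / (j : ℝ))) ^ 2 / kk σ j ≤
        (1 + 4 * σ * (n : ℝ)) ^ 2 * (2 / (j : ℝ) + (251 / 250) / (j : ℝ) ^ 2) := by
    intro j hj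
    rw [Finset.mem_Ico] at hj
    obtain ⟨hkp, -, -, hk4⟩ := hk j hj.1
    have hj1 : (1 : ℝ) ≤ j := by exact_mod_cast hj.1
    have hjn : (j : ℝ) ≤ n := by exact_mod_cast hj.2.le
    have hj0 : (0 : ℝ) < j := by linarith
    have a1 : (2 * ((1 + 4 * σ * (j : ℝ)) / (j : ℝ))) ^ 2 ≤
        (2 * ((1 + 4 * σ * (n : ℝ)) / (j : ℝ))) ^ 2 := by
      gcongr
    calc (2 * ((1 + 4 * σ * (j : ℝ)) / (j : ℝ))) ^ 2 / kk σ j
        = (2 * ((1 + 4 * σ * (j : ℝ)) / (j : ℝ))) ^ 2 * (1 / kk σ j) := by ring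
      _ ≤ (2 * ((1 + 4 * σ * (n : ℝ)) / (j : ℝ))) ^ 2 * ((2 * (j : ℝ) + 1) / 4 + σ) := by
          apply mul_le_mul a1 hk4 (by positivity) (by positivity)
      _ = (1 + 4 * σ * (n : ℝ)) ^ 2 * (2 / (j : ℝ) + (1 + 4 * σ) / (j : ℝ) ^ 2) := by
          field_simp
          ring
      _ ≤ _ := by
          have : (1 + 4 * σ) ≤ 251 / 250 := by linarith
          gcongr
  refine (Finset.sum_le_sum hterm).trans ?_
  rw [← Finset.mul_sum]
  have h3 := sum1 n hn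
  have h4 : Real.log (n : ℝ) ≤ n - 1 := Real.log_le_sub_one_of_pos (by linarith)
  have h5 : 0 ≤ Real.log (n : ℝ) := Real.log_nonneg hn'
  set e : ℝ := 4 * σ * (n : ℝ) with he
  have he0 : 0 < e := by positivity
  have hen : e * (n : ℝ) ≤ 1 / 250 := by
    rw [he]; nlinarith
  have he1 : e ≤ 1 / 250 := by nlinarith
  have h6 : (1 + e) ^ 2 ≤ 1 + 3 * e := by nlinarith
  have h7 : (401 / 100 : ℝ) * (1 - 1 / (n : ℝ)) ≤ 401 / 100 := by
    have : (0 : ℝ) ≤ 1 / (n : ℝ) := by positivity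
    linarith
  have h8 : 0 ≤ ∑ j ∈ Finset.Ico 1 n, (2 / (j : ℝ) + (251 / 250) / (j : ℝ) ^ 2) :=
    Finset.sum_nonneg fun j _ => by positivity
  calc (1 + e) ^ 2 * ∑ j ∈ Finset.Ico 1 n, (2 / (j : ℝ) + (251 / 250) / (j : ℝ) ^ 2)
      ≤ (1 + 3 * e) * (2 * Real.log (n : ℝ) + 401 / 100) := by
        apply mul_le_mul h6 (by linarith) h8 (by positivity)
    _ ≤ 2 * Real.log (n : ℝ) + 9 / 2 := by nlinarith

end Pool.Agent.R223.RW.Sum
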