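import Pool.Agent.R223.RW.Asm
import Pool.Agent.R223.RW.DIFF
import Pool.Agent.R223.RW.KB
import Pool.Agent.R223.RW.LM
import Pool.Agent.R223.RW.LOW
import Pool.Agent.R223.RW.MID
import Pool.Agent.R223.RW.REC
import Pool.Agent.R223.RW.Sum
import Pool.Agent.R223.RW.HIGHQ
import Pool.Agent.R223.RX.Fin
import Pool.Agent.Y282.RB.A
import Pool.Agent.Y282.RB.A1
import Pool.Agent.Y282.RB.A2
import Pool.Agent.Y282.RB.A3
import Pool.Agent.Y282.RB.A4
import Pool.Agent.Y282.RB.B1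
import Pool.Agent.Y282.RB.B2
import Pool.Agent.Y282.RB.F
import Pool.Agent.Y282.RB.F1
import Pool.Agent.Y282.RB.K
import Pool.Agent.Y282.RB.N

/-! # Project RW (helper223): all angular frequencies for `p ≥ 1000 n ^ 2` -/

set_option autoImplicit false

open MeasureTheory

namespace Pool.Agent.R223.RW.Fin

open Pool.Agent.Y282.RB

theorem starq (n : ℕ) (p : ℝ) (hn : 1 ≤ n) (hp : 1000 * (n : ℝ) ^ 2 ≤ p) : Star n p :=
  Asm.star (LOW.main DIFF.main KB.main LM.main) (MID.main DIFF.main KB.main LM.main)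
    (HIGHQ.main KB.main LM.main REC.main (Sum.main KB.main)) n p hn hp

theorem p2 (n : ℕ) (p : ℝ) (hn : 1 ≤ n) (hp : 1000 * (n : ℝ) ^ 2 ≤ p) : 2 ≤ p := by
  have hn' : (1 : ℝ) ≤ (n : ℝ) := by exact_mod_cast hn
  nlinarith

theorem cpos (n : ℕ) (p : ℝ) (hp : 2 ≤ p) : 0 < Cn p n := by
  unfold Cn
  refine Finset.prod_pos (fun j _ => ?_)
  have h1 : (1 : ℝ) / p < 1 := by
    rw [div_lt_one (by linarith)]; linarith
  have h2 : (0 : ℝ) < 1 / p := by positivity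
  have h3 : (0 : ℝ) ≤ (j : ℝ) := Nat.cast_nonneg j
  apply div_pos <;> linarith

theorem plane (n : ℕ) (p : ℝ) (hn : 1 ≤ n) (hp : 2 ≤ p) (h : Star n p)
    (g : ℝ → ℂ) (hg : ContDiff ℝ (⊤ : ℕ∞) g) (hs : HasCompactSupport g) :
    eLpNorm (Tn n (rad n g)) (ENNReal.ofReal p) (volume : Measure ℂ)
      ≤ ENNReal.ofReal (Cn p n) * eLpNorm (rad n g) (ENNReal.ofReal p) (volume : Measure ℂ) :=
  A.main A1.main A2.main A3.main A4.main n p (Cn p n) (by linarith) (cpos n p hp).le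
    (B2.main B1.main n p hn hp h) g hg hs

theorem sharp : ∀ (n : ℕ) (p c : ℝ), 1 ≤ n → 1 < p → 0 ≤ c → c < Cn p n →
  ∃ g : ℝ → ℂ, ContDiff ℝ (⊤ : ℕ∞) g ∧ HasCompactSupport g ∧
    ENNReal.ofReal c * eLpNorm (rad n g) (ENNReal.ofReal p) (volume : Measure ℂ)
      < eLpNorm (Tn n (rad n g)) (ENNReal.ofReal p) (volume : Measure ℂ) :=
  F.main A2.main A3.main F1.main

theorem ext (n : ℕ) (p : ℝ) (hn : 1 ≤ n) (hp : 1000 * (n : ℝ) ^ 2 ≤ p)
    (f : SchwartzMap ℂ ℂ) (hf : Ang n f) :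
    eLpNorm (Tn n f) (ENNReal.ofReal p) (volume : Measure ℂ)
      ≤ ENNReal.ofReal (Cn p n) * eLpNorm (⇑f) (ENNReal.ofReal p) (volume : Measure ℂ) :=
  Pool.Agent.Y282.RB.K.main n p (Cn p n) hn (p2 n p hn hp) (cpos n p (p2 n p hn hp)).le
    (fun g hg hs => plane n p hn (p2 n p hn hp) (starq n p hn hp) g hg hs)
    f hf

theorem all (n : ℕ) (p : ℝ) (hn : 1 ≤ n) (hp : 1000 * (n : ℝ) ^ 2 ≤ p) (k : ℤ)
    (f : SchwartzMap ℂ ℂ) (hf : ∀ a z : ℂ, ‖a‖ = 1 → f (a * z) = a ^ k * f z) :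
    eLpNorm (Tn n f) (ENNReal.ofReal p) (volume : Measure ℂ)
      ≤ ENNReal.ofReal (Cn p n) * eLpNorm (⇑f) (ENNReal.ofReal p) (volume : Measure ℂ) := by
  by_cases hk : k = 2 * n
  · subst hk
    refine ext n p hn hp f (fun a z ha => ?_)
    rw [hf a z ha]
    norm_cast
  · exact Pool.Agent.R223.RX.Fin.boundC n hn k hk p (p2 n p hn hp) f hf

end Pool.Agent.R223.RW.Fin
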