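import Pool.Agent.Y282.RB.Stm

/-!
# Project RW (helper223): the pointwise inequality `Star n p` for `p ≥ 1000 n ^ 2`

Notation of `Pool/Agent/Y282/RB/Stm.lean`; `σ = 1 / p`, `S = √(TT n γ)`.
-/

set_option autoImplicit false

namespace Pool.Agent.R223.RW

open Pool.Agent.Y282.RB

/-- Cauchy-Schwarz: `|γ_0 - γ_j| ≤ j S`, `|γ_0 - y_j| ≤ (j + 1) S`, `|γ_0 - y_0| ≤ σ S`. -/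
def S_DIFF : Prop := ∀ (n : ℕ) (γ : ℕ → ℝ),
  (∀ j : ℕ, j ≤ n → |γ 0 - γ j| ≤ (j : ℝ) * Real.sqrt (TT n γ)) ∧
  ∀ σ : ℝ, 0 < σ → σ < 1 / 2 →
    (∀ j : ℕ, j < n → |γ 0 - yy σ γ j| ≤ ((j : ℝ) + 1) * Real.sqrt (TT n γ)) ∧
    (1 ≤ n → |γ 0 - yy σ γ 0| ≤ σ * Real.sqrt (TT n γ))

/-- bounds of the weights `k_j` -/
def S_KB : Prop := ∀ σ : ℝ, 0 < σ → σ < 1 / 2 →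
  kk σ 0 = 1 / (σ * (1 - σ)) ∧ 1 / σ ≤ kk σ 0 ∧
  (∀ j : ℕ, 1 ≤ j → 0 < kk σ j ∧ kk σ j ≤ 1 / (j : ℝ) + 1 / ((j : ℝ) + 1) ∧
    kk σ j * ((j : ℝ) + 1) ≤ 3 ∧ 1 / kk σ j ≤ (2 * (j : ℝ) + 1) / 4 + σ) ∧
  (∀ a n : ℕ, 1 ≤ a → a ≤ n → ∑ j ∈ Finset.Ico a n, kk σ j
    ≤ 2 * Real.log ((n : ℝ) / (a : ℝ)) + 1 / (a : ℝ) - 1 / (n : ℝ))

/-- the normalisation `Λ = 1` -/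
def S_LM : Prop := ∀ (σ : ℝ) (n : ℕ) (γ : ℕ → ℝ), 0 < σ → σ < 1 / 2 → 1 ≤ n → Lam σ n γ = 1 →
  kk σ 0 * ((yy σ γ 0) ^ 2 - 1) = ∑ j ∈ Finset.Ico 1 n, kk σ j * (1 - (yy σ γ j) ^ 2)

/-- the case `γ_0 ≤ 1` -/
def S_LOW : Prop := ∀ (n : ℕ) (p : ℝ), 1 ≤ n → 1000 * (n : ℝ) ^ 2 ≤ p → ∀ γ : ℕ → ℝ,
  Lam (1 / p) n γ = 1 → 0 ≤ γ 0 → γ 0 ≤ 1 → ph (p / 2) ((γ 0) ^ 2) ≤ (p / 2 - 1) * TT n γ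

/-- the case `γ_0 ≥ 1`, `TT ≤ 4` -/
def S_MID : Prop := ∀ (n : ℕ) (p : ℝ), 1 ≤ n → 1000 * (n : ℝ) ^ 2 ≤ p → ∀ γ : ℕ → ℝ,
  Lam (1 / p) n γ = 1 → 1 ≤ γ 0 → TT n γ ≤ 4 → ph (p / 2) ((γ 0) ^ 2) ≤ (p / 2 - 1) * TT n γ

/-- the case `γ_0 ≥ 1`, `TT ≥ 4` -/
def S_HIGH : Prop := ∀ (n : ℕ) (p : ℝ), 1 ≤ n → 1000 * (n : ℝ) ^ 2 ≤ p → ∀ γ : ℕ → ℝ,
  Lam (1 / p) n γ = 1 → 1 ≤ γ 0 → (γ n) ^ 2 ≤ (γ 0) ^ 2 → 4 ≤ TT n γ →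
  ph (p / 2) ((γ 0) ^ 2) ≤ (p / 2 - 1) * TT n γ

/-- the backward recursion `γ_j = y_j / θ_j - ((1 - θ_j) / θ_j) γ_{j+1}` -/
def S_REC : Prop := ∀ (n : ℕ) (σ : ℝ) (γ : ℕ → ℝ), 1 ≤ n → 0 < σ → σ ≤ 1 / 8 →
  |γ 1| ≤ ∑ j ∈ Finset.Ico 1 n, 2 * ((1 + 4 * σ * (j : ℝ)) / (j : ℝ)) * |yy σ γ j|
    + ((1 + 4 * σ * (n : ℝ)) / (n : ℝ)) * |γ n|

/-- the sum in the large case -/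
def S_SUM : Prop := ∀ (n : ℕ) (σ : ℝ), 1 ≤ n → 0 < σ → σ * (1000 * (n : ℝ) ^ 2) ≤ 1 →
  ∑ j ∈ Finset.Ico 1 n, (2 * ((1 + 4 * σ * (j : ℝ)) / (j : ℝ))) ^ 2 / kk σ j
    ≤ 2 * Real.log (n : ℝ) + 9 / 2

end Pool.Agent.R223.RW
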