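import Mathlib
import Pool.Agent.R223.RW.Stm

/-!
Project RW, piece HIGH: the case `γ_0 ≥ 1`, `TT ≥ 4`.
-/

set_option autoImplicit false

namespace Pool.Agent.R223.RW.HIGH

open Pool.Agent.Y282.RB

theorem aux_q2 {σ q : ℝ} (h0 : 0 < σ) (h1 : σ ≤ 1 / 1000) (hq0 : 0 < q)
    (hq : q * (1 - σ) = 1) : q ^ 2 ≤ 1 + 3 * σ := by
  have h6 : 1 ≤ (1 + 3 * σ) * (1 - σ) ^ 2 := by
    have e : (1 + 3 * σ) * (1 - σ) ^ 2 = 1 + σ * (1 - 5 * σ) + 3 * (σ * σ * σ) := by ring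
    rw [e]
    have h7 : 0 ≤ σ * (1 - 5 * σ) := mul_nonneg h0.le (by linarith)
    have h8 : 0 ≤ σ * σ * σ := by positivity
    linarith
  have h7 : q ^ 2 * (1 - σ) ^ 2 = 1 := by rw [← mul_pow, hq, one_pow]
  have h8 : q ^ 2 * 1 ≤ q ^ 2 * ((1 + 3 * σ) * (1 - σ) ^ 2) :=
    mul_le_mul_of_nonneg_left h6 (sq_nonneg q)
  have h9 : q ^ 2 * ((1 + 3 * σ) * (1 - σ) ^ 2) = (1 + 3 * σ) * (q ^ 2 * (1 - σ) ^ 2) := by ring
  rw [h9, h7, mul_one, mul_one] at h8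
  exact h8

theorem aux_y0 {A σ g : ℝ} (hA : 1 ≤ A) (hσ : 0 < σ) :
    A ^ 2 - 2 * A * σ * (A + |g|) ≤ (A - σ * (A - g)) ^ 2 := by
  have h6' : -|g| ≤ g := neg_abs_le _
  have h7 : 0 ≤ σ ^ 2 * (A - g) ^ 2 := by positivity
  have h8 : 0 ≤ 2 * A * σ := by positivity
  have h9 : 2 * A * σ * (A - g) ≤ 2 * A * σ * (A + |g|) :=
    mul_le_mul_of_nonneg_left (by linarith) h8
  have e : (A - σ * (A - g)) ^ 2 = A ^ 2 - 2 * A * σ * (A - g) + σ ^ 2 * (A - g) ^ 2 := by ring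
  rw [e]
  linarith

theorem aux_main3 {A q B L σ N x : ℝ} (hA : 0 ≤ A ^ 2) (hq0 : 0 < q)
    (hq1 : q ≤ 1001 / 1000 + 1 / 10000) (hq2 : q ^ 2 ≤ 1 + 3 * σ) (hB0 : 0 ≤ B)
    (hB1 : B ≤ 1 + 4 / 1000) (hL0 : 0 ≤ L) (hLN : L ≤ N - 1) (hσ0 : 0 < σ)
    (hσ1 : σ ≤ 1 / 1000) (hσN : σ * N ≤ 1 / 1000)
    (hx : x ≤ 2 * q * A ^ 2 * (1 + B) + (2 * L + 1) + A ^ 2 * q ^ 2 * (2 * L + 9 / 2)) :
    x ≤ A ^ 2 * (2 * L + 9) + (2 * L + 1) := by
  have h6 : q * (1 + B) ≤ (1001 / 1000 + 1 / 10000) * (1 + (1 + 4 / 1000)) :=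
    mul_le_mul hq1 (by linarith) (by linarith) (by norm_num)
  have h8 : σ * L ≤ 1 / 1000 := by
    have : σ * L ≤ σ * N := mul_le_mul_of_nonneg_left (by linarith) hσ0.le
    linarith
  have h9 : q ^ 2 * (2 * L + 9 / 2) ≤ 2 * L + 9 / 2 + 1 / 10 := by
    have h10 : q ^ 2 * (2 * L + 9 / 2) ≤ (1 + 3 * σ) * (2 * L + 9 / 2) :=
      mul_le_mul_of_nonneg_right hq2 (by linarith)
    have e : (1 + 3 * σ) * (2 * L + 9 / 2) = 2 * L + 9 / 2 + 6 * (σ * L) + 27 / 2 * σ := by ring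
    rw [e] at h10
    linarith
  have h11 : A ^ 2 * (2 * (q * (1 + B)) + q ^ 2 * (2 * L + 9 / 2)) ≤ A ^ 2 * (2 * L + 9) :=
    mul_le_mul_of_nonneg_left (by linarith) hA
  have e : A ^ 2 * (2 * (q * (1 + B)) + q ^ 2 * (2 * L + 9 / 2))
      = 2 * q * A ^ 2 * (1 + B) + A ^ 2 * q ^ 2 * (2 * L + 9 / 2) := by ring
  linarith

theorem aux_Dn {N p L D : ℝ} (hN1 : 1 ≤ N) (hN2 : N ≤ N ^ 2) (hp : 1000 * N ^ 2 ≤ p)
    (hLN : L ≤ N - 1) (hD0 : 0 ≤ D) (h : (p - 2 * L - 9) * D ≤ 4 * L + 10) :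
    N * D ≤ 1 / 99 := by
  have h6 : 991 * N ^ 2 ≤ p - 2 * L - 9 := by linarith
  have h7 : 991 * N ^ 2 * D ≤ (p - 2 * L - 9) * D := mul_le_mul_of_nonneg_right h6 hD0
  have h8 : 991 * N ^ 2 * D ≤ 10 * N := by linarith
  have e : 991 * N ^ 2 * D = (991 * (N * D)) * N := by ring
  rw [e] at h8
  have h10 := le_of_mul_le_mul_right h8 (by linarith)
  linarith

theorem main (h2 : S_KB) (h3 : S_LM) (h4 : S_REC) (h5 : S_SUM) : S_HIGH := by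
  intro n p hn hp γ hLam hA hγn hTT
  have hN1 : (1 : ℝ) ≤ n := by exact_mod_cast hn
  have hN2 : (n : ℝ) ≤ (n : ℝ) ^ 2 := le_self_pow₀ hN1 (by norm_num)
  have hp1000 : 1000 ≤ p := by linarith
  have hp0 : 0 < p := by linarith
  set σ : ℝ := 1 / p with hσ
  have hσ0 : 0 < σ := by positivity
  have hσp : σ * p = 1 := by rw [hσ]; field_simp
  have hσle : σ ≤ 1 / 1000 := by
    rw [hσ]
    exact one_div_le_one_div_of_le (by norm_num) hp1000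
  have hσn : σ * (1000 * (n : ℝ) ^ 2) ≤ 1 := by
    have := mul_le_mul_of_nonneg_left hp hσ0.le
    linarith
  obtain ⟨hk0, hk0p, hkj, hksum⟩ := h2 σ hσ0 (by linarith)
  have hlm := h3 σ n γ hσ0 (by linarith) hn hLam
  have hrec := h4 n σ γ hn hσ0 (by linarith)
  have hsum := h5 n σ hn hσ0 hσn
  have hks := hksum 1 n le_rfl hn
  set A : ℝ := γ 0 with hAdef
  set L : ℝ := Real.log (n : ℝ) with hL
  have hL0 : 0 ≤ L := Real.log_nonneg hN1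
  have hLn : L ≤ n - 1 := Real.log_le_sub_one_of_pos (by linarith)
  have hks' : ∑ j ∈ Finset.Ico 1 n, kk σ j ≤ 2 * L + 1 := by
    have h6 : (n : ℝ) / ((1 : ℕ) : ℝ) = n := by simp
    rw [h6] at hks
    have h7 : 0 ≤ 1 / (n : ℝ) := by positivity
    have h8 : 1 / ((1 : ℕ) : ℝ) = 1 := by simp
    rw [h8] at hks
    linarith
  set q : ℝ := 1 / (1 - σ) with hq
  have h1σ : 0 < 1 - σ := by linarith
  have hqσ : q * (1 - σ) = 1 := by rw [hq]; field_simp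
  have hq0 : 0 < q := by positivity
  have hk0q : kk σ 0 * σ = q := by
    rw [hk0, hq]
    field_simp
  have hq1 : q ≤ 1001 / 1000 + 1 / 10000 := by
    rw [hq, div_le_iff₀ h1σ]
    linarith
  have hq2 : q ^ 2 ≤ 1 + 3 * σ := aux_q2 hσ0 hσle hq0 hqσ
  -- the first mean
  set g1 : ℝ := γ 1 with hg1
  have hy0 : yy σ γ 0 = A - σ * (A - g1) := by
    unfold yy th
    simp only [Nat.cast_zero, zero_add, mul_zero, div_one]
    rw [hAdef, hg1]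
    ring
  have hy0sq : A ^ 2 - 2 * A * σ * (A + |g1|) ≤ (yy σ γ 0) ^ 2 := by
    rw [hy0]
    exact aux_y0 hA hσ0
  have hk0pos : 0 < kk σ 0 := by
    have : 0 < 1 / σ := by positivity
    linarith
  set D : ℝ := A ^ 2 - 1 with hD
  have hD0 : 0 ≤ D := by
    have : 1 ≤ A ^ 2 := one_le_pow₀ hA
    rw [hD]
    linarith
  -- the bound of `|γ n|`
  have hγnA : |γ n| ≤ A := by
    have h6 : |γ n| ≤ |A| := sq_le_sq.mp hγn
    rwa [abs_of_nonneg (by linarith : 0 ≤ A)] at h6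
  set Bn : ℝ := (1 + 4 * σ * (n : ℝ)) / (n : ℝ) with hBn
  have hBn0 : 0 ≤ Bn := by rw [hBn]; positivity
  have hBn1 : Bn ≤ 1 + 4 / 1000 := by
    rw [hBn, div_le_iff₀ (by linarith)]
    have h6 : σ * (n : ℝ) ≤ 1 / 1000 * n := mul_le_mul_of_nonneg_right hσle (by linarith)
    linarith
  let c : ℕ → ℝ := fun j => 2 * ((1 + 4 * σ * (j : ℝ)) / (j : ℝ))
  have hg1b : |g1| ≤ ∑ j ∈ Finset.Ico 1 n, c j * |yy σ γ j| + Bn * A := by
    refine hrec.trans ?_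
    have := mul_le_mul_of_nonneg_left hγnA hBn0
    simp only [c]
    linarith
  -- the quadratic estimate
  have hquad : ∀ j ∈ Finset.Ico 1 n, 2 * A * q * (c j * |yy σ γ j|) ≤
      kk σ j * (yy σ γ j) ^ 2 + A ^ 2 * q ^ 2 * (c j ^ 2 / kk σ j) := by
    intro j hj
    have hkpos : 0 < kk σ j := (hkj j (Finset.mem_Ico.mp hj).1).1
    have h6 : (yy σ γ j) ^ 2 = |yy σ γ j| ^ 2 := (sq_abs _).symm
    rw [h6]
    have h7 : 0 ≤ (kk σ j * |yy σ γ j| - A * q * c j) ^ 2 := sq_nonneg _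
    have h8 : kk σ j * |yy σ γ j| ^ 2 + A ^ 2 * q ^ 2 * (c j ^ 2 / kk σ j) -
        2 * A * q * (c j * |yy σ γ j|) = (kk σ j * |yy σ γ j| - A * q * c j) ^ 2 / kk σ j := by
      field_simp
      ring
    have h9 : 0 ≤ (kk σ j * |yy σ γ j| - A * q * c j) ^ 2 / kk σ j := by positivity
    linarith
  have hquad' := Finset.sum_le_sum hquad
  rw [Finset.sum_add_distrib, ← Finset.mul_sum, ← Finset.mul_sum] at hquad'
  have hlm' : ∑ j ∈ Finset.Ico 1 n, kk σ j * (1 - (yy σ γ j) ^ 2)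
      = ∑ j ∈ Finset.Ico 1 n, kk σ j - ∑ j ∈ Finset.Ico 1 n, kk σ j * (yy σ γ j) ^ 2 := by
    rw [← Finset.sum_sub_distrib]
    exact Finset.sum_congr rfl fun j _ => by ring
  rw [hlm'] at hlm
  have hsumc : ∑ j ∈ Finset.Ico 1 n, c j ^ 2 / kk σ j ≤ 2 * L + 9 / 2 := hsum
  set S1 : ℝ := ∑ j ∈ Finset.Ico 1 n, c j * |yy σ γ j| with hS1
  set S2 : ℝ := ∑ j ∈ Finset.Ico 1 n, kk σ j * (yy σ γ j) ^ 2 with hS2
  set S3 : ℝ := ∑ j ∈ Finset.Ico 1 n, c j ^ 2 / kk σ j with hS3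
  set S4 : ℝ := ∑ j ∈ Finset.Ico 1 n, kk σ j with hS4
  -- `k_0 D`
  have hmain1 : kk σ 0 * D ≤ 2 * A * q * (A + |g1|) + S4 - S2 := by
    have h6 : kk σ 0 * ((yy σ γ 0) ^ 2 - 1) ≥ kk σ 0 * (D - 2 * A * σ * (A + |g1|)) :=
      mul_le_mul_of_nonneg_left (by rw [hD]; linarith) hk0pos.le
    have h7 : kk σ 0 * (D - 2 * A * σ * (A + |g1|)) = kk σ 0 * D -
        2 * A * (kk σ 0 * σ) * (A + |g1|) := by ring
    rw [h7, hk0q] at h6
    linarith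
  have hmain2 : kk σ 0 * D ≤ 2 * q * A ^ 2 * (1 + Bn) + (2 * L + 1) +
      A ^ 2 * q ^ 2 * (2 * L + 9 / 2) := by
    have h6 : 2 * A * q * (A + |g1|) ≤ 2 * A * q * (A + (S1 + Bn * A)) := by
      refine mul_le_mul_of_nonneg_left (by linarith) (by positivity)
    have h7 : 2 * A * q * (A + (S1 + Bn * A)) = 2 * q * A ^ 2 * (1 + Bn) + 2 * A * q * S1 := by
      ring
    have h8 : A ^ 2 * q ^ 2 * S3 ≤ A ^ 2 * q ^ 2 * (2 * L + 9 / 2) :=
      mul_le_mul_of_nonneg_left hsumc (by positivity)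
    linarith
  have hA2 : 0 ≤ A ^ 2 := sq_nonneg A
  have hmain3 : kk σ 0 * D ≤ A ^ 2 * (2 * L + 9) + (2 * L + 1) := by
    have h7 : σ * n ≤ 1 / 1000 := by
      have : σ * (n : ℝ) ≤ σ * (n : ℝ) ^ 2 := mul_le_mul_of_nonneg_left hN2 hσ0.le
      linarith
    exact aux_main3 hA2 hq0 hq1 hq2 hBn0 hBn1 hL0 hLn hσ0 hσle h7 hmain2
  have hpk : p ≤ kk σ 0 := by
    have : 1 / σ = p := by rw [hσ]; field_simp
    linarith
  have hA2D : A ^ 2 = 1 + D := by rw [hD]; ring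
  have hmain4 : (p - 2 * L - 9) * D ≤ 4 * L + 10 := by
    have h6 : p * D ≤ kk σ 0 * D := mul_le_mul_of_nonneg_right hpk hD0
    rw [hA2D] at hmain3
    have e : (p - 2 * L - 9) * D = p * D - (2 * L + 9) * D := by ring
    have e2 : (1 + D) * (2 * L + 9) = (2 * L + 9) + (2 * L + 9) * D := by ring
    rw [e2] at hmain3
    rw [e]
    linarith
  have hDn : (n : ℝ) * D ≤ 1 / 99 := aux_Dn hN1 hN2 hp hLn hD0 hmain4
  have hx : p / 2 * D ≤ 2 * L + 6 := by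
    have h6 : (2 * L + 9) * D ≤ 9 * (n * D) := by
      have h7 : (2 * L + 9) * D ≤ (9 * n) * D :=
        mul_le_mul_of_nonneg_right (by linarith) hD0
      linarith
    have e : (p - 2 * L - 9) * D = p * D - (2 * L + 9) * D := by ring
    rw [e] at hmain4
    linarith
  -- conclusion
  have hpow : (A ^ 2) ^ (p / 2) ≤ 729 * (n : ℝ) ^ 2 := by
    have h6 : A ^ 2 ≤ Real.exp D := by
      rw [hA2D]
      have := Real.add_one_le_exp D
      linarith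
    have h7 : (A ^ 2) ^ (p / 2) ≤ (Real.exp D) ^ (p / 2) :=
      Real.rpow_le_rpow hA2 h6 (by linarith)
    rw [← Real.exp_mul] at h7
    refine h7.trans ?_
    have h8 : Real.exp (D * (p / 2)) ≤ Real.exp (2 * L + 6) :=
      Real.exp_le_exp.mpr (by linarith)
    refine h8.trans ?_
    have h9 : Real.exp (2 * L + 6) = (Real.exp L) ^ 2 * (Real.exp 1) ^ 6 := by
      rw [← Real.exp_nat_mul, ← Real.exp_nat_mul, ← Real.exp_add]
      congr 1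
      push_cast
      ring
    rw [h9, hL, Real.exp_log (by linarith)]
    have h10 : (Real.exp 1) ^ 6 ≤ 3 ^ 6 := by
      refine pow_le_pow_left₀ (Real.exp_pos 1).le ?_ 6
      have := Real.exp_one_lt_d9
      linarith
    have h11 : (n : ℝ) ^ 2 * (Real.exp 1) ^ 6 ≤ (n : ℝ) ^ 2 * 3 ^ 6 :=
      mul_le_mul_of_nonneg_left h10 (sq_nonneg _)
    linarith
  have hph : ph (p / 2) (A ^ 2) ≤ 729 * (n : ℝ) ^ 2 := by
    unfold ph
    have h6 : 0 ≤ p / 2 * (A ^ 2 - 1) := mul_nonneg (by linarith) hD0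
    linarith
  refine hph.trans ?_
  have h6 : (p / 2 - 1) * 4 ≤ (p / 2 - 1) * TT n γ :=
    mul_le_mul_of_nonneg_left hTT (by linarith)
  refine le_trans ?_ h6
  linarith

end Pool.Agent.R223.RW.HIGH
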